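import Pool.Agent.H26.FA.Slope

/-!
The fixed area ensemble of the self-avoiding polygons on the square lattice with a perimeter
fugacity `x` below the critical value `x_c`: the partition function, the limit shape, and the law of
large numbers with exponential concentration for the half-perimeter; its variance.
-/

set_option autoImplicit false

namespace Pool.Agent.Results.MP_d21795_pr.FixedAreaPerimeter

open Filter Topology MeasureTheory Set Metric
open scoped Pointwise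

/-- a closed nearest-neighbour loop on `ℤ²` with `m` steps, rooted at the origin and oriented,
that visits no vertex twice -/
def IsLoop (m : ℕ) (f : ZMod m → ℤ × ℤ) : Prop :=
  f 0 = 0 ∧ Function.Injective f ∧
    ∀ i : ZMod m, |(f (i + 1)).1 - (f i).1| + |(f (i + 1)).2 - (f i).2| = 1

/-- the edge from `f k` to `f (k+1)` is horizontal, joins the columns `x = a` and `x = a + 1`, and
has height larger than `b`: it lies above the unit cell `[a, a+1] × [b, b+1]` -/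
def Above (m : ℕ) (f : ZMod m → ℤ × ℤ) (a b : ℤ) (k : ZMod m) : Prop :=
  (((f k).1 = a ∧ (f (k + 1)).1 = a + 1) ∨ ((f k).1 = a + 1 ∧ (f (k + 1)).1 = a)) ∧ b < (f k).2

/-- the unit cell `[a, a+1] × [b, b+1]` is enclosed by the loop: the vertical ray from the cell
upwards crosses an odd number of edges -/
def Encl (m : ℕ) (f : ZMod m → ℤ × ℤ) (c : ℤ × ℤ) : Prop :=
  Odd (Nat.card {k : ZMod m // Above m f c.1 c.2 k})

/-- the area: the number of unit cells enclosed by the loop -/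
noncomputable def area (m : ℕ) (f : ZMod m → ℤ × ℤ) : ℕ := Nat.card {c : ℤ × ℤ // Encl m f c}

/-- the convex hull of the polygon, scaled by `1/s` -/
def hull (m : ℕ) (s : ℝ) (f : ZMod (2 * m) → ℤ × ℤ) : Set (ℝ × ℝ) :=
  convexHull ℝ (range fun k : ZMod (2 * m) => (((f k).1 : ℝ) / s, ((f k).2 : ℝ) / s))

/-- the region enclosed by the polygon (the union of the enclosed unit cells), scaled by `1/s` -/
def inside (m : ℕ) (s : ℝ) (f : ZMod (2 * m) → ℤ × ℤ) : Set (ℝ × ℝ) :=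
  ⋃ c ∈ {c : ℤ × ℤ | Encl (2 * m) f c},
    Ico ((c.1 : ℝ) / s) (((c.1 : ℝ) + 1) / s) ×ˢ Ico ((c.2 : ℝ) / s) (((c.2 : ℝ) + 1) / s)

/-- the polygon, scaled by `1/s`, has the shape `T` up to `δ`: after a translation of `T` the
Hausdorff distance between the convex hull of the polygon and `T` is smaller than `δ`, and so is
the area of the symmetric difference of the enclosed region and `T` -/
def Close (m : ℕ) (s : ℝ) (T : Set (ℝ × ℝ)) (δ : ℝ) (f : ZMod (2 * m) → ℤ × ℤ) : Prop :=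
  ∃ w : ℝ × ℝ, hausdorffDist (hull m s f) ((fun x => x + w) '' T) < δ ∧
    volume.real (symmDiff (inside m s f) ((fun x => x + w) '' T)) < δ

/-- the total weight of the self-avoiding polygons (up to translation) of area `n` with the
property `P`, a polygon of half-perimeter `m` having the weight `x^m`.  Here `m = k + 2` with
`k = 0, 1, 2, …`; a polygon of half-perimeter `m` corresponds to `4 m` rooted and oriented loops. -/
noncomputable def Z (x : ℝ) (n : ℕ) (P : ∀ m : ℕ, (ZMod (2 * m) → ℤ × ℤ) → Prop) : ℝ :=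
  ∑' k : ℕ, x ^ (k + 2) *
    ({f : ZMod (2 * (k + 2)) → ℤ × ℤ | IsLoop (2 * (k + 2)) f ∧ area (2 * (k + 2)) f = n ∧
      P (k + 2) f}.ncard : ℝ) / (4 * ((k + 2 : ℕ) : ℝ))

/-- the probability of `P` in the fixed area ensemble with area `n` and parameter `x` -/
noncomputable def prob (x : ℝ) (n : ℕ) (P : ∀ m : ℕ, (ZMod (2 * m) → ℤ × ℤ) → Prop) : ℝ :=
  Z x n P / Z x n (fun _ _ => True)

/-- `p_{m,n}`: the number of self-avoiding polygons (up to translation) of half-perimeter `m` and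
area `n` -/
noncomputable def p (m n : ℕ) : ℝ :=
  ({f : ZMod (2 * m) → ℤ × ℤ | IsLoop (2 * m) f ∧ area (2 * m) f = n}.ncard : ℝ) / (4 * (m : ℝ))

/-- the moment of order `j` of the half-perimeter in the fixed area ensemble -/
noncomputable def mom (x : ℝ) (n j : ℕ) : ℝ :=
  (∑' k : ℕ, ((k + 2 : ℕ) : ℝ) ^ j * (x ^ (k + 2) * p (k + 2) n)) /
    ∑' k : ℕ, x ^ (k + 2) * p (k + 2) n

/-- the variance of the half-perimeter in the fixed area ensemble -/
noncomputable def var (x : ℝ) (n : ℕ) : ℝ := mom x n 2 - mom x n 1 ^ 2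

/-- `ω` is an `n`-step self-avoiding walk on `ℤ²` started at the origin. -/
def IsSAW (n : ℕ) (ω : Fin (n + 1) → ℤ × ℤ) : Prop :=
  ω 0 = (0, 0) ∧
  (∀ i : Fin n, |(ω i.succ).1 - (ω i.castSucc).1| + |(ω i.succ).2 - (ω i.castSucc).2| = 1) ∧
  Function.Injective ω

/-- `c_n`: the number of `n`-step self-avoiding walks from the origin -/
noncomputable def c (n : ℕ) : ℕ := Nat.card {ω : Fin (n + 1) → ℤ × ℤ // IsSAW n ω}

/-- `c_n(x)`: the number of `n`-step self-avoiding walks from the origin to `x` -/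
noncomputable def cx (n : ℕ) (x : ℤ × ℤ) : ℕ :=
  Nat.card {ω : Fin (n + 1) → ℤ × ℤ // IsSAW n ω ∧ ω (Fin.last n) = x}

/-- the two-point function `G_z(x) = ∑_n c_n(x) z^n` -/
noncomputable def G (z : ℝ) (x : ℤ × ℤ) : ℝ := ∑' n : ℕ, (cx n x : ℝ) * z ^ n

/-- the Wulff shape of a function `m` of the directions `x ∈ ℤ²` -/
def Wulff (m : ℤ × ℤ → ℝ) : Set (ℝ × ℝ) :=
  {h | ∀ x : ℤ × ℤ, x ≠ 0 → h.1 * x.1 + h.2 * x.2 ≤ m x}

/-- `R(x) = √|K|`, `K` the Wulff shape at the step fugacity `z = √x` -/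
noncomputable def R (m : ℝ → ℤ × ℤ → ℝ) (x : ℝ) : ℝ := √(volume.real (Wulff (m √x)))

theorem c_eq (n : ℕ) : c n = TH795.EP.c n := TH795.EP2.card_walks n

theorem cx_eq (n : ℕ) (x : ℤ × ℤ) : cx n x = TH795.EP.a n x.1 x.2 := TH795.EP2.card_walks_to n x

theorem G_eq (z : ℝ) (x y : ℤ) : G z (x, y) = Y981.L2.Gz z x y := by
  unfold G Y981.L2.Gz
  apply tsum_congr
  intro n
  rw [cx_eq]

/-- the energy of the fugacity `x` -/
noncomputable def En (x : ℝ) : ℝ := -(1 / 2) * Real.log (x * H981.mu ^ 2)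

theorem zz_En {x : ℝ} (hx : 0 < x) : H26.FA.zz (En x) = √x := by
  have hmu := H981.mu_pos
  unfold H26.FA.zz En
  have h1 : 0 < x * H981.mu ^ 2 := by positivity
  rw [div_eq_iff hmu.ne']
  have h2 : √x * H981.mu = √(x * H981.mu ^ 2) := by
    rw [Real.sqrt_mul hx.le, Real.sqrt_sq hmu.le]
  rw [h2, Real.sqrt_eq_rpow, Real.rpow_def_of_pos h1]
  congr 1
  ring

theorem zz_sq {x : ℝ} (hx : 0 < x) (k : ℕ) : H26.FA.zz (En x) ^ (2 * k) = x ^ k := by
  rw [zz_En hx, pow_mul, Real.sq_sqrt hx.le]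

theorem En_pos {x : ℝ} (hx : x ∈ Ioo 0 (1 / H981.mu ^ 2)) : 0 < En x := by
  have hmu := H981.mu_pos
  have h1 : x * H981.mu ^ 2 < 1 := by
    have := hx.2
    rwa [lt_div_iff₀ (by positivity)] at this
  have h2 := Real.log_neg (mul_pos hx.1 (by positivity)) h1
  unfold En
  linarith

theorem Z_eq {x : ℝ} (hx : 0 < x) (n : ℕ) (P : ∀ m : ℕ, (ZMod (2 * m) → ℤ × ℤ) → Prop) :
    Z x n P = H26.GC.Zs (H26.FA.zz (En x)) (fun m f => Y981.L2.area (2 * m) f = n ∧ P m f) := by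
  unfold Z H26.GC.Zs H26.GC.tm
  apply tsum_congr
  intro k
  rw [zz_sq hx]
  rfl

theorem Z_true {x : ℝ} (hx : 0 < x) (n : ℕ) :
    Z x n (fun _ _ => True) = H26.GC.Zs (H26.FA.zz (En x)) (H26.FA.Ea n) := by
  unfold Z H26.GC.Zs H26.GC.tm
  apply tsum_congr
  intro k
  rw [zz_sq hx]
  simp only [and_true]
  rfl

theorem p_eq {x : ℝ} (hx : 0 < x) (n k : ℕ) :
    x ^ (k + 2) * p (k + 2) n = H26.GC.tm (H26.FA.zz (En x)) (H26.FA.Ea n) k := by
  unfold p H26.GC.tm
  rw [zz_sq hx, mul_div_assoc']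
  rfl

theorem mom_eq {x : ℝ} (hx : 0 < x) (n j : ℕ) :
    mom x n j = H26.FA.Tj n j (En x) / (2 ^ j * H26.FA.Tj n 0 (En x)) := by
  unfold mom
  have h1 : ∑' k : ℕ, x ^ (k + 2) * p (k + 2) n = H26.FA.Tj n 0 (En x) := by
    rw [H26.FA.Tj_zero]
    unfold H26.GC.Zs
    exact tsum_congr fun k => p_eq hx n k
  have h2 : 2 ^ j * ∑' k : ℕ, ((k + 2 : ℕ) : ℝ) ^ j * (x ^ (k + 2) * p (k + 2) n) =
      H26.FA.Tj n j (En x) := by
    unfold H26.FA.Tj H26.FA.tj
    rw [← tsum_mul_left]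
    apply tsum_congr
    intro k
    rw [p_eq hx, mul_pow]
    ring
  rw [h1, ← h2, mul_div_mul_left _ _ (by positivity)]

theorem var_eq {x : ℝ} (hx : 0 < x) (n : ℕ) : var x n = H26.FA.va n (En x) := by
  unfold var H26.FA.va H26.FA.me
  rw [mom_eq hx, mom_eq hx]
  norm_num

theorem mom_one {x : ℝ} (hx : 0 < x) (n : ℕ) : mom x n 1 = H26.FA.me n (En x) := by
  unfold H26.FA.me
  rw [mom_eq hx]
  norm_num

theorem En_deriv {x : ℝ} (hx : 0 < x) : HasDerivAt En (-(1 / (2 * x))) x := by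
  have hmu := H981.mu_pos
  have h1 : HasDerivAt (fun x : ℝ => x * H981.mu ^ 2) (1 * H981.mu ^ 2) x :=
    (hasDerivAt_id x).mul_const _
  have h2 := (h1.log (by positivity)).const_mul (-(1 / 2 : ℝ))
  refine h2.congr_deriv ?_
  field_simp

theorem int_eq {n : ℕ} (hn : 0 < n) {x y : ℝ} (hx : x ∈ Ioo 0 (1 / H981.mu ^ 2))
    (hy : y ∈ Ioo 0 (1 / H981.mu ^ 2)) (hxy : x ≤ y)
    (hZ : 0 < H26.GC.Zs (H26.FA.zz (En x)) (H26.FA.Ea n)) :
    ∫ t in x..y, var t n / t = mom y n 1 - mom x n 1 := by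
  have hpos : ∀ t ∈ uIcc x y, 0 < t ∧ 0 < En t ∧ 0 < H26.FA.Tj n 0 (En t) := by
    intro t ht
    rw [uIcc_of_le hxy] at ht
    have ht0 : 0 < t := lt_of_lt_of_le hx.1 ht.1
    have ht1 : 0 < En t := En_pos ⟨ht0, lt_of_le_of_lt ht.2 hy.2⟩
    refine ⟨ht0, ht1, ?_⟩
    rw [H26.FA.Tj_zero]
    exact H26.FA.Z_pos_all hn ht1 hZ
  have h := intervalIntegral.integral_eq_sub_of_hasDerivAt (a := x) (b := y)
    (f := fun t => H26.FA.me n (En t)) (f' := fun t => H26.FA.va n (En t) / t) (fun t ht => by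
      obtain ⟨h1, h2, h3⟩ := hpos t ht
      have h4 := (H26.FA.me_deriv hn h2 h3).comp t (En_deriv h1)
      refine h4.congr_deriv ?_
      field_simp) (by
      apply ContinuousOn.intervalIntegrable
      intro t ht
      obtain ⟨h1, h2, h3⟩ := hpos t ht
      apply ContinuousAt.continuousWithinAt
      exact ((H26.FA.va_cont hn h2 h3).comp (f := En) (En_deriv h1).continuousAt).div
        continuousAt_id h1.ne')
  have e : ∫ t in x..y, var t n / t = ∫ t in x..y, H26.FA.va n (En t) / t := by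
    apply intervalIntegral.integral_congr
    intro t ht
    simp only
    rw [var_eq (hpos t ht).1]
  rw [e, h, mom_one hx.1, mom_one hy.1]

/-- **Theorem.** Let `μ = lim c_n^(1/n)`, and for `0 < z < 1/μ` and `u ∈ ℤ²`, `u ≠ 0`, let
`m_z(u) = lim_k - (1/k) log G_z(k u)` be the inverse correlation length of the self-avoiding walk in
the direction `u`, with the Wulff shape `K_z = {h : h · u ≤ m_z(u) for all u}`, a convex compact
neighbourhood of `0`.  The radius of convergence of `P(x, 1) = ∑_{m,n} p_{m,n} x^m` is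
`x_c = 1/μ²`.  For `0 < x < x_c` put `R(x) = √|K_z|` with `z = √x`.  `R` is positive,
nonincreasing, tends to `0` as `x → x_c`, is a concave function of `- log x`, and is differentiable at
almost every `x`.
Consider the fixed area ensemble: polygons of area `n` weighted by `x^(half-perimeter)`, with the
partition function `Z_n(x) = ∑_m p_{m,n} x^m` and the half-perimeter `Y_n`.  Let `0 < x < x_c`.
(1) `(1/√n) log Z_n(x) → - 2 R(x)`.
(2) For every `δ > 0` there is `c > 0` such that for all large `n`, with probability at least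
`1 - exp(-c √n)`, the polygon scaled by `1/√n` has the shape `K_z/√|K_z|` up to `δ` (`Close`).
(3) If `R` has the derivative `D` at `x`, then `Y_n/√n → - 2 x D` in the following sense:
`E Y_n/√n → - 2 x D`, and for every `δ > 0` there is `c > 0` with
`P(|Y_n/√n + 2 x D| ≥ δ) ≤ exp(-c √n)` for all large `n`.  The limit is at least `2`, and tends to
`∞` as `x → x_c` (along the points of differentiability).
(4) If `x ≤ y < x_c` and `R` has the derivatives `D` and `D'` at `x` and `y`, then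
`(1/√n) ∫_x^y Var_t(Y_n) dt/t → 2 x D - 2 y D'`: on average over the parameter the variance of `Y_n`
is at most of the order `√n` (and of this order exactly if the limit is positive, as it is by (3)
for fixed `x` and all `y` close to `x_c`). -/
theorem result : ∃ (μ : ℝ) (m : ℝ → ℤ × ℤ → ℝ), 0 < μ ∧
    Tendsto (fun n : ℕ => (c n : ℝ) ^ (1 / (n : ℝ))) atTop (𝓝 μ) ∧
    (∀ x : ℝ, 0 < x →
      (x < 1 / μ ^ 2 → Summable fun k : ℕ => x ^ (k + 2) *
        ({f : ZMod (2 * (k + 2)) → ℤ × ℤ | IsLoop (2 * (k + 2)) f}.ncard : ℝ) /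
          (4 * ((k + 2 : ℕ) : ℝ))) ∧
      (1 / μ ^ 2 < x → ¬Summable fun k : ℕ => x ^ (k + 2) *
        ({f : ZMod (2 * (k + 2)) → ℤ × ℤ | IsLoop (2 * (k + 2)) f}.ncard : ℝ) /
          (4 * ((k + 2 : ℕ) : ℝ)))) ∧
    (∀ z : ℝ, 0 < z → z < 1 / μ → (∀ u : ℤ × ℤ, u ≠ 0 → 0 < m z u ∧
      Tendsto (fun k : ℕ => - Real.log (G z (k * u.1, k * u.2)) / k) atTop (𝓝 (m z u))) ∧
      Convex ℝ (Wulff (m z)) ∧ IsCompact (Wulff (m z)) ∧ (0 : ℝ × ℝ) ∈ interior (Wulff (m z))) ∧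
    ((∀ x ∈ Ioo 0 (1 / μ ^ 2), 0 < R m x) ∧ AntitoneOn (R m) (Ioo 0 (1 / μ ^ 2)) ∧
      Tendsto (R m) (𝓝[<] (1 / μ ^ 2)) (𝓝 0) ∧
      ConcaveOn ℝ (Ioi 0) (fun E => R m (Real.exp (-(2 * E)) / μ ^ 2)) ∧
      ∀ᵐ x : ℝ, x ∈ Ioo 0 (1 / μ ^ 2) → DifferentiableAt ℝ (R m) x) ∧
    (∀ x ∈ Ioo 0 (1 / μ ^ 2),
      (∀ᶠ n : ℕ in atTop, 0 < Z x n (fun _ _ => True)) ∧
      Tendsto (fun n : ℕ => Real.log (Z x n (fun _ _ => True)) / √(n : ℝ)) atTop
        (𝓝 (-(2 * R m x))) ∧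
      (∀ δ : ℝ, 0 < δ → ∃ c : ℝ, 0 < c ∧ ∀ᶠ n : ℕ in atTop,
        prob x n (fun k f => ¬Close k √(n : ℝ) ((1 / R m x) • Wulff (m √x)) δ f) ≤
          Real.exp (-(c * √(n : ℝ)))) ∧
      ∀ D : ℝ, HasDerivAt (R m) D x → 2 ≤ -(2 * x * D) ∧
        Tendsto (fun n : ℕ => mom x n 1 / √(n : ℝ)) atTop (𝓝 (-(2 * x * D))) ∧
        ∀ δ : ℝ, 0 < δ → ∃ c : ℝ, 0 < c ∧ ∀ᶠ n : ℕ in atTop,
          prob x n (fun k _ => δ ≤ |(k : ℝ) / √(n : ℝ) + 2 * x * D|) ≤
            Real.exp (-(c * √(n : ℝ)))) ∧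
    (∀ A : ℝ, ∃ x₀ ∈ Ioo 0 (1 / μ ^ 2), ∀ x ∈ Ioo x₀ (1 / μ ^ 2), ∀ D : ℝ,
      HasDerivAt (R m) D x → A ≤ -(2 * x * D)) ∧
    ∀ x ∈ Ioo 0 (1 / μ ^ 2), ∀ y ∈ Ioo 0 (1 / μ ^ 2), x ≤ y → ∀ D D' : ℝ,
      HasDerivAt (R m) D x → HasDerivAt (R m) D' y →
      Tendsto (fun n : ℕ => (∫ t in x..y, var t n / t) / √(n : ℝ)) atTop
        (𝓝 (2 * x * D - 2 * y * D')) := by
  have hmu := H981.mu_pos
  have hmu2 : 0 < H981.mu ^ 2 := by positivity
  obtain ⟨m, hm⟩ : ∃ m : ℝ → ℤ × ℤ → ℝ,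
      m = fun z x => Y981.L2X.M (-Real.log (z * H981.mu)) ((x.1 : ℝ), (x.2 : ℝ)) := ⟨_, rfl⟩
  have hlogE : ∀ z : ℝ, 0 < z → z < 1 / H981.mu → 0 < -Real.log (z * H981.mu) := by
    intro z hz hz1
    have h1 : z * H981.mu < 1 := by rwa [lt_div_iff₀ hmu] at hz1
    have h2 := Real.log_neg (mul_pos hz hmu) h1
    linarith
  have hW : ∀ z : ℝ, 0 < z → z < 1 / H981.mu →
      Wulff (m z) = H26.WF.Kc (-Real.log (z * H981.mu)) := by
    intro z hz hz1
    rw [hm]
    exact H26.WF.shape (hlogE z hz hz1)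
  have hsq : ∀ x ∈ Ioo 0 (1 / H981.mu ^ 2), 0 < √x ∧ √x < 1 / H981.mu := by
    intro x hx
    refine ⟨Real.sqrt_pos.2 hx.1, ?_⟩
    rw [Real.sqrt_lt' (by positivity), div_pow, one_pow]
    exact hx.2
  have hlog : ∀ x : ℝ, 0 < x → -Real.log (√x * H981.mu) = En x := by
    intro x hx
    rw [← zz_En hx, H26.FA.zz_log]
  have hWE : ∀ x ∈ Ioo 0 (1 / H981.mu ^ 2), Wulff (m √x) = H26.WF.Kc (En x) := by
    intro x hx
    obtain ⟨h1, h2⟩ := hsq x hx
    rw [hW _ h1 h2, hlog x hx.1]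
  have hR : ∀ x ∈ Ioo 0 (1 / H981.mu ^ 2), R m x = H26.WF.g (En x) := by
    intro x hx
    unfold R
    rw [hWE x hx]
    rfl
  have hphi : ∀ E : ℝ, 0 < E → Real.exp (-(2 * E)) / H981.mu ^ 2 ∈ Ioo 0 (1 / H981.mu ^ 2) ∧
      En (Real.exp (-(2 * E)) / H981.mu ^ 2) = E := by
    intro E hE
    refine ⟨⟨by positivity, ?_⟩, ?_⟩
    · rw [div_lt_div_iff_of_pos_right hmu2, ← Real.exp_zero]
      exact Real.exp_lt_exp.2 (by linarith)
    · unfold En
      rw [div_mul_cancel₀ _ hmu2.ne', Real.log_exp]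
      ring
  have hphiE : ∀ x : ℝ, 0 < x → Real.exp (-(2 * En x)) / H981.mu ^ 2 = x := by
    intro x hx
    unfold En
    have e : -(2 * (-(1 / 2) * Real.log (x * H981.mu ^ 2))) = Real.log (x * H981.mu ^ 2) := by ring
    rw [e, Real.exp_log (by positivity)]
    field_simp
  have hder : ∀ x ∈ Ioo 0 (1 / H981.mu ^ 2), ∀ D : ℝ, HasDerivAt (R m) D x →
      HasDerivAt H26.WF.g (-(2 * x * D)) (En x) := by
    intro x hx D hD
    have h1 : HasDerivAt (fun E : ℝ => Real.exp (-(2 * E)) / H981.mu ^ 2)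
        (Real.exp (-(2 * En x)) * -(2 * 1) / H981.mu ^ 2) (En x) :=
      ((((hasDerivAt_id (En x)).const_mul 2).neg).exp).div_const _
    have h2 : HasDerivAt (R m) D (Real.exp (-(2 * En x)) / H981.mu ^ 2) := by
      rw [hphiE x hx.1]
      exact hD
    have h3 := h2.comp (En x) h1
    have h4 : H26.WF.g =ᶠ[𝓝 (En x)] (R m ∘ fun E : ℝ => Real.exp (-(2 * E)) / H981.mu ^ 2) := by
      filter_upwards [Ioi_mem_nhds (En_pos hx)] with F hF
      obtain ⟨p1, p2⟩ := hphi F hF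
      rw [Function.comp_apply, hR _ p1, p2]
    refine (h3.congr_of_eventuallyEq h4).congr_deriv ?_
    have e : Real.exp (-(2 * En x)) * -(2 * 1) / H981.mu ^ 2 =
        -2 * (Real.exp (-(2 * En x)) / H981.mu ^ 2) := by ring
    rw [e, hphiE x hx.1]
    ring
  have hgm : MonotoneOn H26.WF.g (Ioi 0) := by
    intro E hE F hF hEF
    rw [mem_Ioi] at hE hF
    unfold H26.WF.g
    apply Real.sqrt_le_sqrt
    unfold H26.WF.V
    exact measureReal_mono (H26.GC.Kc_mono hEF) (H26.WF.Kc_props hF).2.1.measure_lt_top.ne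
  have hEa : ∀ x ∈ Ioo 0 (1 / H981.mu ^ 2), ∀ y ∈ Ioo 0 (1 / H981.mu ^ 2), x ≤ y → En y ≤ En x := by
    intro x hx y hy hxy
    unfold En
    have h1 := Real.log_le_log (mul_pos hx.1 hmu2) (mul_le_mul_of_nonneg_right hxy hmu2.le)
    linarith
  have hanti : AntitoneOn (R m) (Ioo 0 (1 / H981.mu ^ 2)) := by
    intro x hx y hy hxy
    rw [hR x hx, hR y hy]
    exact hgm (En_pos hy) (En_pos hx) (hEa x hx y hy hxy)
  have hprob : ∀ x : ℝ, 0 < x → ∀ (n : ℕ) (P : ∀ m : ℕ, (ZMod (2 * m) → ℤ × ℤ) → Prop) (B : ℝ),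
      0 < H26.GC.Zs (H26.FA.zz (En x)) (H26.FA.Ea n) →
      H26.GC.Zs (H26.FA.zz (En x)) (fun m f => Y981.L2.area (2 * m) f = n ∧ P m f) ≤
        B * H26.GC.Zs (H26.FA.zz (En x)) (H26.FA.Ea n) → prob x n P ≤ B := by
    intro x hx n P B h1 h2
    unfold prob
    rw [Z_true hx, Z_eq hx, div_le_iff₀ h1]
    exact h2
  refine ⟨H981.mu, m, hmu, ?_, ?_, ?_, ⟨?_, hanti, ?_, ?_, ?_⟩, ?_, ?_, ?_⟩
  · refine H981.tendsto_root.congr ?_
    intro n
    rw [c_eq, TH795.EP.c_eq]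
  · intro x hx
    have e : (fun k : ℕ => x ^ (k + 2) *
        ({f : ZMod (2 * (k + 2)) → ℤ × ℤ | IsLoop (2 * (k + 2)) f}.ncard : ℝ) /
          (4 * ((k + 2 : ℕ) : ℝ))) = H26.GC.tm (H26.FA.zz (En x)) H26.FA.Ap := by
      funext k
      unfold H26.GC.tm
      rw [zz_sq hx, H26.FA.card_Ap]
      rfl
    rw [e]
    constructor
    · intro h
      exact H26.FA.below (En_pos ⟨hx, h⟩)
    · intro h
      apply H26.FA.above
      have h1 : 1 < x * H981.mu ^ 2 := by rwa [div_lt_iff₀ hmu2] at h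
      have h2 := Real.log_pos h1
      unfold En
      linarith
  · intro z hz hz1
    have he := hlogE z hz hz1
    refine ⟨fun x hx => ?_, ?_⟩
    · rw [hm]
      refine ⟨Y981.L2X.M_pos he hx, ?_⟩
      refine (Y981.L2X.G_dir hz hz1 hx).congr ?_
      intro k
      rw [G_eq]
    · rw [hW z hz hz1]
      exact H26.WF.Kc_props he
  · intro x hx
    rw [hR x hx]
    exact H26.UN.g_pos (En_pos hx)
  · -- the limit at the critical point
    have hxc : En (1 / H981.mu ^ 2) = 0 := by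
      unfold En
      rw [one_div_mul_cancel hmu2.ne', Real.log_one, mul_zero]
    have h1 : Tendsto En (𝓝[<] (1 / H981.mu ^ 2)) (𝓝[>] 0) := by
      rw [tendsto_nhdsWithin_iff]
      constructor
      · have h2 := (En_deriv (show 0 < 1 / H981.mu ^ 2 by positivity)).continuousAt.tendsto
        rw [hxc] at h2
        exact h2.mono_left nhdsWithin_le_nhds
      · filter_upwards [Ioo_mem_nhdsLT (show 0 < 1 / H981.mu ^ 2 by positivity)] with x hx
        exact En_pos hx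
    have h2 : Tendsto H26.WF.g (𝓝[>] 0) (𝓝 0) := by
      rw [Metric.tendsto_nhds]
      intro ε hε
      filter_upwards [H26.WF.g_small hε] with E h3
      rw [Real.dist_eq, sub_zero, abs_of_nonneg (H26.WF.g_nonneg E)]
      exact h3
    refine (h2.comp h1).congr' ?_
    filter_upwards [Ioo_mem_nhdsLT (show 0 < 1 / H981.mu ^ 2 by positivity)] with x hx
    rw [Function.comp_apply, hR x hx]
  · refine H26.WF.g_concave.congr fun E hE => ?_
    obtain ⟨p1, p2⟩ := hphi E hE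
    rw [hR _ p1, p2]
  · have h1 : MonotoneOn (fun x => -R m x) (Ioo 0 (1 / H981.mu ^ 2)) :=
      fun x hx y hy hxy => neg_le_neg (hanti hx hy hxy)
    filter_upwards [h1.ae_differentiableWithinAt_of_mem] with x hx hx1
    have h2 := (hx hx1).differentiableAt (Ioo_mem_nhds hx1.1 hx1.2)
    have h3 := h2.neg
    simpa using h3
  · intro x hx
    have hE := En_pos hx
    have hpos : ∀ᶠ n : ℕ in atTop, 0 < H26.GC.Zs (H26.FA.zz (En x)) (H26.FA.Ea n) := by
      filter_upwards [H26.FA.exact_low hE one_pos] with n hn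
      exact (Real.exp_pos _).trans_le hn
    refine ⟨?_, ?_, ?_, ?_⟩
    · filter_upwards [hpos] with n hn
      rw [Z_true hx.1]
      exact hn
    · rw [hR x hx]
      refine (H26.FA.exact_lim hE).congr fun n => ?_
      rw [Z_true hx.1]
    · intro δ hδ
      obtain ⟨δ1, hδ1, hreg⟩ := H26.UN.region_u hδ
      obtain ⟨δ2, hδ2⟩ : ∃ δ2, δ2 = min δ δ1 := ⟨_, rfl⟩
      have hδ20 : 0 < δ2 := by rw [hδ2]; exact lt_min hδ hδ1
      have hδ2a : δ2 ≤ δ := by rw [hδ2]; exact min_le_left _ _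
      have hδ2b : δ2 ≤ δ1 := by rw [hδ2]; exact min_le_right _ _
      obtain ⟨c, hc, H⟩ := H26.FA.exact_law hE hδ20 (show (0 : ℝ) < 1 / 2 by norm_num) (by norm_num)
      refine ⟨c, hc, ?_⟩
      filter_upwards [H, eventually_ge_atTop 1] with n hn hn1
      have hn0 : (0 : ℝ) < n := by exact_mod_cast hn1
      have hsn : 0 < √(n : ℝ) := Real.sqrt_pos.2 hn0
      refine hprob x hx.1 n _ _ hn.1 (hn.2 _ ?_)
      rintro k hk f hf ⟨q1, q2⟩
      refine ⟨q1, Or.inl ?_⟩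
      have : NeZero (2 * k) := ⟨by omega⟩
      by_contra hcon
      apply q2
      have hp : ¬ ∀ w : ℝ × ℝ, δ2 ≤ hausdorffDist (convexHull ℝ (H26.WS.pts √(n : ℝ) f))
          ((fun x => x + w) '' H26.UN.UE (En x)) := hcon
      push Not at hp
      obtain ⟨w, hw⟩ := hp
      rw [hWE x hx, hR x hx]
      refine ⟨w, lt_of_lt_of_le hw hδ2a, ?_⟩
      apply hreg (H26.UN.UE (En x)) (H26.UN.UE_cl hE) (H26.UN.UE_vol hE) w
        (H26.WS.region √(n : ℝ) f) (convexHull ℝ (H26.WS.pts √(n : ℝ) f))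
        (H26.WS.region_meas _ _) (H26.WS.region_sub hsn hf.2.2) (H26.WS.hull_compact _ _)
        (lt_of_lt_of_le hw hδ2b)
      have h2 : volume.real (H26.WS.region √(n : ℝ) f) =
          (Y981.L2.area (2 * k) f : ℝ) / √(n : ℝ) ^ 2 := by
        unfold Measure.real
        rw [H26.WS.region_vol hsn hf.2.2, ENNReal.toReal_ofReal (by positivity)]
      rw [h2, Real.sq_sqrt hn0.le, one_le_div hn0, q1]
    · intro D hD
      have hD' := hder x hx D hD
      refine ⟨H26.FA.deriv_ge hE hD', ?_, ?_⟩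
      · refine (H26.FA.mean_lim hE hD').congr fun n => ?_
        rw [mom_one hx.1, H26.FA.me_eq]
      · intro δ hδ
        obtain ⟨c, hc, H⟩ := H26.FA.exact_conc hE hD' hδ
        refine ⟨c, hc, ?_⟩
        filter_upwards [H] with n hn
        refine hprob x hx.1 n _ _ hn.1 (hn.2 _ ?_)
        rintro k hk f hf ⟨q1, q2⟩
        refine ⟨q1, ?_⟩
        rw [sub_neg_eq_add]
        exact q2
  · intro A
    obtain ⟨E₀, hE₀, H⟩ := H26.FA.slope_big A
    obtain ⟨p1, p2⟩ := hphi E₀ hE₀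
    refine ⟨_, p1, ?_⟩
    intro x hx D hD
    have hx' : x ∈ Ioo 0 (1 / H981.mu ^ 2) := ⟨p1.1.trans hx.1, hx.2⟩
    refine H (En x) (En_pos hx') ?_ _ (hder x hx' D hD)
    rw [← p2]
    unfold En
    have h1 := Real.log_lt_log (mul_pos p1.1 hmu2) (mul_lt_mul_of_pos_right hx.1 hmu2)
    linarith
  · intro x hx y hy hxy D D' hD hD'
    have hE := En_pos hx
    have hF := En_pos hy
    have h1 := H26.FA.mean_lim hE (hder x hx D hD)
    have h2 := H26.FA.mean_lim hF (hder y hy D' hD')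
    have h3 := h2.sub h1
    have e : -(2 * y * D') - -(2 * x * D) = 2 * x * D - 2 * y * D' := by ring
    rw [e] at h3
    refine h3.congr' ?_
    filter_upwards [H26.FA.exact_low hE one_pos, eventually_ge_atTop 1] with n h4 hn1
    have hZ : 0 < H26.GC.Zs (H26.FA.zz (En x)) (H26.FA.Ea n) := (Real.exp_pos _).trans_le h4
    rw [int_eq (by omega) hx hy hxy hZ, mom_one hx.1, mom_one hy.1, H26.FA.me_eq, H26.FA.me_eq,
      sub_div]

end Pool.Agent.Results.MP_d21795_pr.FixedAreaPerimeter
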