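import Pool.Agent.H26.FA.Ldp2

/-!
The number `p_{m,n}` of the self-avoiding polygons on the square lattice with half-perimeter `m` and
area `n ~ u m^2`: exact exponential growth rate.  The large deviation principle, in local form, of the
half-perimeter in the fixed area ensemble with a perimeter fugacity `x` below `x_c`.
-/

set_option autoImplicit false

namespace Pool.Agent.Results.MP_d21795_pr.PerimeterLargeDeviations

open Filter Topology MeasureTheory Set Metric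
open scoped Pointwise

/-- a closed nearest-neighbour loop on `ℤ²` with `m` steps, rooted at the origin and oriented,
that visits no vertex twice -/
def IsLoop (m : ℕ) (f : ZMod m → ℤ × ℤ) : Prop :=
  f 0 = 0 ∧ Function.Injective f ∧
    ∀ i : ZMod m, |(f (i + 1)).1 - (f i).1| + |(f (i + 1)).2 - (f i).2| = 1

/-- the edge from `f k` to `f (k+1)` is horizontal, joins the columns `x = a` and `x = a + 1`, and
has height larger than `b`: it lies above the unit cell `[a, a+1] × [b, b+1]` -/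
def Above (m : ℕ) (f : ZMod m → ℤ × ℤ) (a b : ℤ) (k : ZMod m) : Prop :=
  (((f k).1 = a ∧ (f (k + 1)).1 = a + 1) ∨ ((f k).1 = a + 1 ∧ (f (k + 1)).1 = a)) ∧ b < (f k).2

/-- the unit cell `[a, a+1] × [b, b+1]` is enclosed by the loop: the vertical ray from the cell
upwards crosses an odd number of edges -/
def Encl (m : ℕ) (f : ZMod m → ℤ × ℤ) (c : ℤ × ℤ) : Prop :=
  Odd (Nat.card {k : ZMod m // Above m f c.1 c.2 k})

/-- the area: the number of unit cells enclosed by the loop -/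
noncomputable def area (m : ℕ) (f : ZMod m → ℤ × ℤ) : ℕ := Nat.card {c : ℤ × ℤ // Encl m f c}

/-- `p_{m,n}`: the number of self-avoiding polygons (up to translation) of half-perimeter `m` and
area `n` (a polygon of half-perimeter `m` corresponds to `4 m` rooted and oriented loops) -/
noncomputable def p (m n : ℕ) : ℝ :=
  ({f : ZMod (2 * m) → ℤ × ℤ | IsLoop (2 * m) f ∧ area (2 * m) f = n}.ncard : ℝ) / (4 * (m : ℝ))

open Classical in
/-- the total weight of the polygons of area `n` with half-perimeter in `√n S`, a polygon of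
half-perimeter `m` having the weight `x^m`.  Here `m = k + 2` with `k = 0, 1, 2, …` -/
noncomputable def W (x : ℝ) (n : ℕ) (S : Set ℝ) : ℝ :=
  ∑' k : ℕ, if ((k + 2 : ℕ) : ℝ) / √(n : ℝ) ∈ S then x ^ (k + 2) * p (k + 2) n else 0

/-- the probability of `Y_n / √n ∈ S`, `Y_n` the half-perimeter in the fixed area ensemble with area
`n` and parameter `x` -/
noncomputable def prob (x : ℝ) (n : ℕ) (S : Set ℝ) : ℝ := W x n S / W x n univ

/-- `ω` is an `n`-step self-avoiding walk on `ℤ²` started at the origin. -/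
def IsSAW (n : ℕ) (ω : Fin (n + 1) → ℤ × ℤ) : Prop :=
  ω 0 = (0, 0) ∧
  (∀ i : Fin n, |(ω i.succ).1 - (ω i.castSucc).1| + |(ω i.succ).2 - (ω i.castSucc).2| = 1) ∧
  Function.Injective ω

/-- `c_n`: the number of `n`-step self-avoiding walks from the origin -/
noncomputable def c (n : ℕ) : ℕ := Nat.card {ω : Fin (n + 1) → ℤ × ℤ // IsSAW n ω}

/-- `c_n(x)`: the number of `n`-step self-avoiding walks from the origin to `x` -/
noncomputable def cx (n : ℕ) (x : ℤ × ℤ) : ℕ :=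
  Nat.card {ω : Fin (n + 1) → ℤ × ℤ // IsSAW n ω ∧ ω (Fin.last n) = x}

/-- the two-point function `G_z(x) = ∑_n c_n(x) z^n` -/
noncomputable def G (z : ℝ) (x : ℤ × ℤ) : ℝ := ∑' n : ℕ, (cx n x : ℝ) * z ^ n

/-- the Wulff shape of a function `m` of the directions `x ∈ ℤ²` -/
def Wulff (m : ℤ × ℤ → ℝ) : Set (ℝ × ℝ) :=
  {h | ∀ x : ℤ × ℤ, x ≠ 0 → h.1 * x.1 + h.2 * x.2 ≤ m x}

theorem c_eq (n : ℕ) : c n = TH795.EP.c n := TH795.EP2.card_walks n

theorem cx_eq (n : ℕ) (x : ℤ × ℤ) : cx n x = TH795.EP.a n x.1 x.2 := TH795.EP2.card_walks_to n x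

theorem G_eq (z : ℝ) (x y : ℤ) : G z (x, y) = Y981.L2.Gz z x y := by
  unfold G Y981.L2.Gz
  apply tsum_congr
  intro n
  rw [cx_eq]

/-- the energy of the fugacity `x` -/
noncomputable def En (x : ℝ) : ℝ := -(1 / 2) * Real.log (x * H981.mu ^ 2)

theorem zz_En {x : ℝ} (hx : 0 < x) : H26.FA.zz (En x) = √x := by
  have hmu := H981.mu_pos
  unfold H26.FA.zz En
  have h1 : 0 < x * H981.mu ^ 2 := by positivity
  rw [div_eq_iff hmu.ne']
  have h2 : √x * H981.mu = √(x * H981.mu ^ 2) := by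
    rw [Real.sqrt_mul hx.le, Real.sqrt_sq hmu.le]
  rw [h2, Real.sqrt_eq_rpow, Real.rpow_def_of_pos h1]
  congr 1
  ring

theorem zz_sq {x : ℝ} (hx : 0 < x) (k : ℕ) : H26.FA.zz (En x) ^ (2 * k) = x ^ k := by
  rw [zz_En hx, pow_mul, Real.sq_sqrt hx.le]

theorem En_pos {x : ℝ} (hx : x ∈ Ioo 0 (1 / H981.mu ^ 2)) : 0 < En x := by
  have hmu := H981.mu_pos
  have h1 : x * H981.mu ^ 2 < 1 := by
    have := hx.2
    rwa [lt_div_iff₀ (by positivity)] at this
  have h2 := Real.log_neg (mul_pos hx.1 (by positivity)) h1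
  unfold En
  linarith

theorem W_eq {x : ℝ} (hx : 0 < x) (n : ℕ) (S : Set ℝ) :
    W x n S = H26.GC.Zs (H26.FA.zz (En x)) (H26.FA.QS n S) := by
  classical
  unfold W H26.GC.Zs
  apply tsum_congr
  intro k
  unfold H26.GC.tm
  rw [zz_sq hx]
  by_cases h : ((k + 2 : ℕ) : ℝ) / √(n : ℝ) ∈ S
  · rw [if_pos h, mul_div_assoc]
    congr 1
    unfold p
    congr 3
    ext f
    exact ⟨fun h1 => ⟨h1.1, h1.2, h⟩, fun h1 => ⟨h1.1, h1.2.1⟩⟩
  · rw [if_neg h]
    have e : H26.GC.PQ (H26.FA.QS n S) (k + 2) = ∅ := by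
      ext f
      exact ⟨fun h1 => h h1.2.2, fun h1 => h1.elim⟩
    rw [e, Set.ncard_empty]
    simp

theorem W_univ {x : ℝ} (hx : 0 < x) (n : ℕ) :
    W x n univ = H26.GC.Zs (H26.FA.zz (En x)) (H26.FA.Ea n) := by
  rw [W_eq hx]
  unfold H26.GC.Zs H26.GC.tm
  apply tsum_congr
  intro k
  congr 4
  ext f
  exact ⟨fun h1 => ⟨h1.1, h1.2.1⟩, fun h1 => ⟨h1.1, h1.2, mem_univ _⟩⟩

/-- **Theorem.** Let `μ = lim c_n^(1/n)`, and for `0 < z < 1/μ` and `u ∈ ℤ²`, `u ≠ 0`, let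
`m_z(u) = lim_k - (1/k) log G_z(k u)` be the inverse correlation length of the self-avoiding walk in
the direction `u`, with the Wulff shape `K_z = {h : h · u ≤ m_z(u) for all u}`, a convex compact
neighbourhood of `0`.  Let `R(u) = sup_{0 < z < 1/μ} (2 √(u |K_z|) + 2 log (μ z))`, a continuous and
strictly increasing function on `[0, 1/4]` with `R(0) = 0`, `R(1/4) = 2 log μ`.
(1) The number `p_{m,n}` of the self-avoiding polygons with half-perimeter `m` and area `n`: if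
`m → ∞` and `n/m² → u ∈ (0, 1/4)` along some sequence, then `p_{m,n} > 0` and
`(1/m) log p_{m,n} → 2 log μ - R(u)`.
(2) The fixed area ensemble: polygons of area `n` weighted by `x^(half-perimeter)`, `0 < x < 1/μ²`
(`1/μ²` is the radius of convergence of `P(x, 1)`), with half-perimeter `Y_n`.  Put
`J_x(y) = y (R(1/y²) - log (x μ²)) - 2 √|K_z|` with `z = √x`, `y ≥ 2`, a nonnegative continuous
convex function.  If `m_n/√n → y > 2`, then `(1/√n) log P(Y_n = m_n) → - J_x(y)`, and `Y_n/√n`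
satisfies the large deviation principle with the speed `√n` and the rate function `J_x` (`∞` on
`(-∞, 2)`): lower bound for open sets and upper bound for closed sets.  If `x ↦ √|K_√x|` has the
derivative `D` at `x`, then `y = - 2 x D` is the only zero of `J_x`. -/
theorem result : ∃ (μ : ℝ) (m : ℝ → ℤ × ℤ → ℝ) (R : ℝ → ℝ) (J : ℝ → ℝ → ℝ), 0 < μ ∧
    Tendsto (fun n : ℕ => (c n : ℝ) ^ (1 / (n : ℝ))) atTop (𝓝 μ) ∧
    (∀ x : ℝ, 0 < x →
      (x < 1 / μ ^ 2 → Summable fun k : ℕ => x ^ (k + 2) *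
        ({f : ZMod (2 * (k + 2)) → ℤ × ℤ | IsLoop (2 * (k + 2)) f}.ncard : ℝ) /
          (4 * ((k + 2 : ℕ) : ℝ))) ∧
      (1 / μ ^ 2 < x → ¬Summable fun k : ℕ => x ^ (k + 2) *
        ({f : ZMod (2 * (k + 2)) → ℤ × ℤ | IsLoop (2 * (k + 2)) f}.ncard : ℝ) /
          (4 * ((k + 2 : ℕ) : ℝ)))) ∧
    (∀ z : ℝ, 0 < z → z < 1 / μ → (∀ u : ℤ × ℤ, u ≠ 0 → 0 < m z u ∧
      Tendsto (fun k : ℕ => - Real.log (G z (k * u.1, k * u.2)) / k) atTop (𝓝 (m z u))) ∧
      Convex ℝ (Wulff (m z)) ∧ IsCompact (Wulff (m z)) ∧ (0 : ℝ × ℝ) ∈ interior (Wulff (m z))) ∧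
    (∀ u ∈ Icc (0 : ℝ) (1 / 4), IsLUB {y : ℝ | ∃ z : ℝ, 0 < z ∧ z < 1 / μ ∧
      y = 2 * √(u * volume.real (Wulff (m z))) + 2 * Real.log (μ * z)} (R u)) ∧
    (ContinuousOn R (Icc 0 (1 / 4)) ∧ StrictMonoOn R (Icc 0 (1 / 4)) ∧ R 0 = 0 ∧
      R (1 / 4) = 2 * Real.log μ) ∧
    (∀ u ∈ Ioo (0 : ℝ) (1 / 4), ∀ M N : ℕ → ℕ, Tendsto M atTop atTop →
      Tendsto (fun j => (N j : ℝ) / (M j : ℝ) ^ 2) atTop (𝓝 u) →
      (∀ᶠ j in atTop, 0 < p (M j) (N j)) ∧
      Tendsto (fun j => Real.log (p (M j) (N j)) / M j) atTop (𝓝 (2 * Real.log μ - R u))) ∧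
    ∀ x ∈ Ioo 0 (1 / μ ^ 2),
      (∀ y : ℝ, 2 ≤ y → J x y = y * (R (1 / y ^ 2) - Real.log (x * μ ^ 2)) -
        2 * √(volume.real (Wulff (m √x)))) ∧
      ConvexOn ℝ (Ici 2) (J x) ∧ ContinuousOn (J x) (Ici 2) ∧ (∀ y : ℝ, 2 ≤ y → 0 ≤ J x y) ∧
      (∀ D : ℝ, HasDerivAt (fun t : ℝ => √(volume.real (Wulff (m √t)))) D x →
        ∀ y : ℝ, 2 ≤ y → (J x y = 0 ↔ y = -(2 * x * D))) ∧
      (∀ y : ℝ, 2 < y → ∀ M : ℕ → ℕ, Tendsto (fun n : ℕ => (M n : ℝ) / √(n : ℝ)) atTop (𝓝 y) →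
        (∀ᶠ n : ℕ in atTop, 0 < x ^ M n * p (M n) n ∧ 0 < W x n univ) ∧
        Tendsto (fun n : ℕ => Real.log (x ^ M n * p (M n) n / W x n univ) / √(n : ℝ)) atTop
          (𝓝 (-J x y))) ∧
      (∀ S : Set ℝ, IsOpen S → ∀ y ∈ S, 2 ≤ y → ∀ ε : ℝ, 0 < ε → ∀ᶠ n : ℕ in atTop,
        Real.exp (-((J x y + ε) * √(n : ℝ))) ≤ prob x n S) ∧
      ∀ S : Set ℝ, IsClosed S → ∀ t : ℝ, (∀ y ∈ S, 2 ≤ y → t < J x y) → ∀ᶠ n : ℕ in atTop,
        prob x n S ≤ Real.exp (-(t * √(n : ℝ))) := by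
  have hmu := H981.mu_pos
  have hmu2 : 0 < H981.mu ^ 2 := by positivity
  obtain ⟨m, hm⟩ : ∃ m : ℝ → ℤ × ℤ → ℝ,
      m = fun z x => Y981.L2X.M (-Real.log (z * H981.mu)) ((x.1 : ℝ), (x.2 : ℝ)) := ⟨_, rfl⟩
  have hlogE : ∀ z : ℝ, 0 < z → z < 1 / H981.mu → 0 < -Real.log (z * H981.mu) := by
    intro z hz hz1
    have h1 : z * H981.mu < 1 := by rwa [lt_div_iff₀ hmu] at hz1
    have h2 := Real.log_neg (mul_pos hz hmu) h1
    linarith
  have hW : ∀ z : ℝ, 0 < z → z < 1 / H981.mu →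
      Wulff (m z) = H26.WF.Kc (-Real.log (z * H981.mu)) := by
    intro z hz hz1
    rw [hm]
    exact H26.WF.shape (hlogE z hz hz1)
  have hinv : ∀ E : ℝ, 0 < E → ∃ z : ℝ, 0 < z ∧ z < 1 / H981.mu ∧
      -Real.log (z * H981.mu) = E := by
    intro E hE
    refine ⟨Real.exp (-E) / H981.mu, by positivity, ?_, ?_⟩
    · rw [div_lt_div_iff_of_pos_right hmu, ← Real.exp_zero]
      exact Real.exp_lt_exp.2 (by linarith)
    · rw [div_mul_cancel₀ _ hmu.ne', Real.log_exp, neg_neg]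
  have hsq : ∀ x ∈ Ioo 0 (1 / H981.mu ^ 2), 0 < √x ∧ √x < 1 / H981.mu := by
    intro x hx
    refine ⟨Real.sqrt_pos.2 hx.1, ?_⟩
    rw [Real.sqrt_lt' (by positivity), div_pow, one_pow]
    exact hx.2
  have hlog : ∀ x : ℝ, 0 < x → -Real.log (√x * H981.mu) = En x := by
    intro x hx
    rw [← zz_En hx, H26.FA.zz_log]
  have hWE : ∀ x ∈ Ioo 0 (1 / H981.mu ^ 2), Wulff (m √x) = H26.WF.Kc (En x) := by
    intro x hx
    obtain ⟨h1, h2⟩ := hsq x hx
    rw [hW _ h1 h2, hlog x hx.1]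
  have hR : ∀ x ∈ Ioo 0 (1 / H981.mu ^ 2), √(volume.real (Wulff (m √x))) = H26.WF.g (En x) := by
    intro x hx
    rw [hWE x hx]
    rfl
  have hphi : ∀ E : ℝ, 0 < E → Real.exp (-(2 * E)) / H981.mu ^ 2 ∈ Ioo 0 (1 / H981.mu ^ 2) ∧
      En (Real.exp (-(2 * E)) / H981.mu ^ 2) = E := by
    intro E hE
    refine ⟨⟨by positivity, ?_⟩, ?_⟩
    · rw [div_lt_div_iff_of_pos_right hmu2, ← Real.exp_zero]
      exact Real.exp_lt_exp.2 (by linarith)
    · unfold En
      rw [div_mul_cancel₀ _ hmu2.ne', Real.log_exp]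
      ring
  have hphiE : ∀ x : ℝ, 0 < x → Real.exp (-(2 * En x)) / H981.mu ^ 2 = x := by
    intro x hx
    unfold En
    have e : -(2 * (-(1 / 2) * Real.log (x * H981.mu ^ 2))) = Real.log (x * H981.mu ^ 2) := by ring
    rw [e, Real.exp_log (by positivity)]
    field_simp
  have hder : ∀ x ∈ Ioo 0 (1 / H981.mu ^ 2), ∀ D : ℝ,
      HasDerivAt (fun t : ℝ => √(volume.real (Wulff (m √t)))) D x →
      HasDerivAt H26.WF.g (-(2 * x * D)) (En x) := by
    intro x hx D hD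
    have h1 : HasDerivAt (fun E : ℝ => Real.exp (-(2 * E)) / H981.mu ^ 2)
        (Real.exp (-(2 * En x)) * -(2 * 1) / H981.mu ^ 2) (En x) :=
      ((((hasDerivAt_id (En x)).const_mul 2).neg).exp).div_const _
    have h2 : HasDerivAt (fun t : ℝ => √(volume.real (Wulff (m √t)))) D
        (Real.exp (-(2 * En x)) / H981.mu ^ 2) := by
      rw [hphiE x hx.1]
      exact hD
    have h3 := HasDerivAt.comp (En x) h2 h1
    have h4 : HasDerivAt H26.WF.g (D * (Real.exp (-(2 * En x)) * -(2 * 1) / H981.mu ^ 2)) (En x) := by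
      refine h3.congr_of_eventuallyEq ?_
      filter_upwards [Ioi_mem_nhds (En_pos hx)] with E hE
      obtain ⟨p1, p2⟩ := hphi E hE
      rw [Function.comp_apply, hR _ p1, p2]
    refine h4.congr_deriv ?_
    have e : Real.exp (-(2 * En x)) * -(2 * 1) / H981.mu ^ 2 =
        -2 * (Real.exp (-(2 * En x)) / H981.mu ^ 2) := by ring
    rw [e, hphiE x hx.1]
    ring
  refine ⟨H981.mu, m, H26.WF.RR, fun x => H26.FA.JJ (En x), hmu, ?_, ?_, ?_, ?_,
    ⟨H26.WF.RR_cont, H26.WF.RR_strict, H26.WF.RR_zero, H26.WF.RR_quarter⟩, ?_, ?_⟩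
  · refine H981.tendsto_root.congr ?_
    intro n
    rw [c_eq, TH795.EP.c_eq]
  · intro x hx
    have e : (fun k : ℕ => x ^ (k + 2) *
        ({f : ZMod (2 * (k + 2)) → ℤ × ℤ | IsLoop (2 * (k + 2)) f}.ncard : ℝ) /
          (4 * ((k + 2 : ℕ) : ℝ))) = H26.GC.tm (H26.FA.zz (En x)) H26.FA.Ap := by
      funext k
      unfold H26.GC.tm
      rw [zz_sq hx, H26.FA.card_Ap]
      rfl
    rw [e]
    constructor
    · intro h
      exact H26.FA.below (En_pos ⟨hx, h⟩)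
    · intro h
      apply H26.FA.above
      have h1 : 1 < x * H981.mu ^ 2 := by rwa [div_lt_iff₀ hmu2] at h
      have h2 := Real.log_pos h1
      unfold En
      linarith
  · intro z hz hz1
    have he := hlogE z hz hz1
    refine ⟨fun x hx => ?_, ?_⟩
    · rw [hm]
      refine ⟨Y981.L2X.M_pos he hx, ?_⟩
      refine (Y981.L2X.G_dir hz hz1 hx).congr ?_
      intro k
      rw [G_eq]
    · rw [hW z hz hz1]
      exact H26.WF.Kc_props he
  · intro u hu
    have hs := H26.WF.sqrt_mem hu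
    constructor
    · rintro _ ⟨z, hz, hz1, rfl⟩
      have h1 := H26.WF.le_rho hs.1 hs.2 (hlogE z hz hz1)
      rw [← H26.WF.RR_eq hu.1] at h1
      rw [hW z hz hz1, Real.sqrt_mul hu.1, mul_comm H981.mu z]
      unfold H26.WF.g H26.WF.V at h1
      linarith
    · intro b hb
      rw [H26.WF.RR_eq hu.1]
      apply H26.WF.rho_le
      intro E hE
      obtain ⟨z, hz, hz1, rfl⟩ := hinv E hE
      have h1 := hb ⟨z, hz, hz1, rfl⟩
      rw [hW z hz hz1, Real.sqrt_mul hu.1, mul_comm H981.mu z] at h1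
      unfold H26.WF.g H26.WF.V
      linarith
  · intro u hu M N hM hN
    exact H26.FA.pmn_lim hu.1 hu.2 hM hN
  · intro x hx
    have hE := En_pos hx
    refine ⟨?_, H26.FA.J_conv _, H26.FA.J_cont _, fun y hy => H26.FA.J_nonneg hE hy, ?_, ?_, ?_, ?_⟩
    · intro y hy
      rw [hR x hx]
      unfold H26.FA.JJ En
      ring
    · intro D hD y hy
      exact H26.FA.J_zero hE (hder x hx D hD) hy
    · intro y hy M hM
      obtain ⟨h1, h2⟩ := H26.FA.loc_lim hE hy hM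
      constructor
      · filter_upwards [h1, H26.FA.exact_low hE one_pos] with n h3 h4
        rw [W_univ hx.1]
        refine ⟨mul_pos (pow_pos hx.1 _) h3, (Real.exp_pos _).trans_le h4⟩
      · refine h2.congr ?_
        intro n
        rw [W_univ hx.1, zz_sq hx.1]
        rfl
    · intro S hS y hy hy2 ε hε
      filter_upwards [H26.FA.ldp_low hE hy2 (hS.mem_nhds hy) hε,
        H26.FA.exact_low hE one_pos] with n h1 h2
      have hZ := (Real.exp_pos _).trans_le h2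
      unfold prob
      rw [W_univ hx.1, W_eq hx.1, le_div_iff₀ hZ]
      exact h1
    · intro S hS t ht
      filter_upwards [H26.FA.ldp_up hE hS ht, H26.FA.exact_low hE one_pos] with n h1 h2
      have hZ := (Real.exp_pos _).trans_le h2
      unfold prob
      rw [W_univ hx.1, W_eq hx.1, div_le_iff₀ hZ]
      exact h1

end Pool.Agent.Results.MP_d21795_pr.PerimeterLargeDeviations
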