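import Pool.Agent.H26.FA.Shp

/-!
The shape of the self-avoiding polygons on the square lattice with given perimeter and given area,
the area being of the order of the square of the perimeter.
-/

set_option autoImplicit false

namespace Pool.Agent.Results.MP_d21795_pr.ShapeGivenPerimeterArea

open Filter Topology MeasureTheory Set Metric
open scoped Pointwise

/-- a closed nearest-neighbour loop on `ℤ²` with `m` steps, rooted at the origin and oriented,
that visits no vertex twice -/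
def IsLoop (m : ℕ) (f : ZMod m → ℤ × ℤ) : Prop :=
  f 0 = 0 ∧ Function.Injective f ∧
    ∀ i : ZMod m, |(f (i + 1)).1 - (f i).1| + |(f (i + 1)).2 - (f i).2| = 1

/-- the edge from `f k` to `f (k+1)` is horizontal, joins the columns `x = a` and `x = a + 1`, and
has height larger than `b`: it lies above the unit cell `[a, a+1] × [b, b+1]` -/
def Above (m : ℕ) (f : ZMod m → ℤ × ℤ) (a b : ℤ) (k : ZMod m) : Prop :=
  (((f k).1 = a ∧ (f (k + 1)).1 = a + 1) ∨ ((f k).1 = a + 1 ∧ (f (k + 1)).1 = a)) ∧ b < (f k).2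

/-- the unit cell `[a, a+1] × [b, b+1]` is enclosed by the loop: the vertical ray from the cell
upwards crosses an odd number of edges -/
def Encl (m : ℕ) (f : ZMod m → ℤ × ℤ) (c : ℤ × ℤ) : Prop :=
  Odd (Nat.card {k : ZMod m // Above m f c.1 c.2 k})

/-- the area: the number of unit cells enclosed by the loop -/
noncomputable def area (m : ℕ) (f : ZMod m → ℤ × ℤ) : ℕ := Nat.card {c : ℤ × ℤ // Encl m f c}

/-- the convex hull of the polygon, scaled by `1/n` -/
def hull (n : ℕ) (f : ZMod (2 * n) → ℤ × ℤ) : Set (ℝ × ℝ) :=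
  convexHull ℝ (range fun k : ZMod (2 * n) => (((f k).1 : ℝ) / n, ((f k).2 : ℝ) / n))

/-- the region enclosed by the polygon (the union of the enclosed unit cells), scaled by `1/n` -/
def inside (n : ℕ) (f : ZMod (2 * n) → ℤ × ℤ) : Set (ℝ × ℝ) :=
  ⋃ c ∈ {c : ℤ × ℤ | Encl (2 * n) f c},
    Ico ((c.1 : ℝ) / n) (((c.1 : ℝ) + 1) / n) ×ˢ Ico ((c.2 : ℝ) / n) (((c.2 : ℝ) + 1) / n)

/-- the polygon, scaled by `1/n`, has the shape `T` up to `δ`: after a translation of `T` the
Hausdorff distance between the convex hull of the polygon and `T` is smaller than `δ`, and so is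
the area of the symmetric difference of the enclosed region and `T` -/
def Close (n : ℕ) (T : Set (ℝ × ℝ)) (δ : ℝ) (f : ZMod (2 * n) → ℤ × ℤ) : Prop :=
  ∃ w : ℝ × ℝ, hausdorffDist (hull n f) ((fun x => x + w) '' T) < δ ∧
    volume.real (symmDiff (inside n f) ((fun x => x + w) '' T)) < δ

/-- the number of the self-avoiding polygons (up to translation) with half-perimeter `k`, area `n` and
the property `B` (a polygon of half-perimeter `k` corresponds to `4 k` rooted and oriented loops) -/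
noncomputable def num (k n : ℕ) (B : (ZMod (2 * k) → ℤ × ℤ) → Prop) : ℝ :=
  ({f : ZMod (2 * k) → ℤ × ℤ | IsLoop (2 * k) f ∧ area (2 * k) f = n ∧ B f}.ncard : ℝ) /
    (4 * (k : ℝ))

/-- `ω` is an `n`-step self-avoiding walk on `ℤ²` started at the origin. -/
def IsSAW (n : ℕ) (ω : Fin (n + 1) → ℤ × ℤ) : Prop :=
  ω 0 = (0, 0) ∧
  (∀ i : Fin n, |(ω i.succ).1 - (ω i.castSucc).1| + |(ω i.succ).2 - (ω i.castSucc).2| = 1) ∧
  Function.Injective ω

/-- `c_n`: the number of `n`-step self-avoiding walks from the origin -/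
noncomputable def c (n : ℕ) : ℕ := Nat.card {ω : Fin (n + 1) → ℤ × ℤ // IsSAW n ω}

/-- `c_n(x)`: the number of `n`-step self-avoiding walks from the origin to `x` -/
noncomputable def cx (n : ℕ) (x : ℤ × ℤ) : ℕ :=
  Nat.card {ω : Fin (n + 1) → ℤ × ℤ // IsSAW n ω ∧ ω (Fin.last n) = x}

/-- the two-point function `G_z(x) = ∑_n c_n(x) z^n` -/
noncomputable def G (z : ℝ) (x : ℤ × ℤ) : ℝ := ∑' n : ℕ, (cx n x : ℝ) * z ^ n

/-- the Wulff shape of a function `m` of the directions `x ∈ ℤ²` -/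
def Wulff (m : ℤ × ℤ → ℝ) : Set (ℝ × ℝ) :=
  {h | ∀ x : ℤ × ℤ, x ≠ 0 → h.1 * x.1 + h.2 * x.2 ≤ m x}

/-- `z` maximises `2 √(u |K_z|) + 2 log (μ z)`, `K_z` the Wulff shape of `m z` -/
def IsMax (μ : ℝ) (m : ℝ → ℤ × ℤ → ℝ) (u z : ℝ) : Prop :=
  0 < z ∧ z < 1 / μ ∧ ∀ z' : ℝ, 0 < z' → z' < 1 / μ →
    2 * √(u * volume.real (Wulff (m z'))) + 2 * Real.log (μ * z') ≤
      2 * √(u * volume.real (Wulff (m z))) + 2 * Real.log (μ * z)

theorem c_eq (n : ℕ) : c n = TH795.EP.c n := TH795.EP2.card_walks n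

theorem cx_eq (n : ℕ) (x : ℤ × ℤ) : cx n x = TH795.EP.a n x.1 x.2 := TH795.EP2.card_walks_to n x

theorem G_eq (z : ℝ) (x y : ℤ) : G z (x, y) = Y981.L2.Gz z x y := by
  unfold G Y981.L2.Gz
  apply tsum_congr
  intro n
  rw [cx_eq]

/-- **Theorem.** Let `μ = lim c_n^(1/n)`, and for `0 < z < 1/μ` and `x ∈ ℤ²`, `x ≠ 0`, let
`m_z(x) = lim_j - (1/j) log G_z(j x)` be the inverse correlation length of the self-avoiding walk in
the direction `x`, with the Wulff shape `K_z = {h : h · x ≤ m_z(x) for all x}`, a convex compact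
neighbourhood of `0`.  Let `0 < u < 1/4`.
(1) Some `z` maximises `2 √(u |K_z|) + 2 log (μ z)`, and the set `W = √(u / |K_z|) K_z` (of area `u`)
is the same for all maximisers `z`.
(2) The uniform measure on the self-avoiding polygons with half-perimeter `k` and area exactly `n`:
for every `δ > 0` there are `c, ε > 0` and `k₀` such that for all `k ≥ k₀` and all `n` with
`|n/k² - u| ≤ ε` there are such polygons, and all but a proportion `exp (- c k)` of them have, scaled
by `1/k`, the shape `W` up to `δ` (`Close`).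
This is also the law of the polygon in the fixed area ensemble of the problem, with any parameter
`x`, and in the fixed perimeter ensemble, with any parameter `q`, given that `Y_n = k` and `X_k = n`
respectively. -/
theorem result : ∃ (μ : ℝ) (m : ℝ → ℤ × ℤ → ℝ), 0 < μ ∧
    Tendsto (fun n : ℕ => (c n : ℝ) ^ (1 / (n : ℝ))) atTop (𝓝 μ) ∧
    (∀ z : ℝ, 0 < z → z < 1 / μ → (∀ x : ℤ × ℤ, x ≠ 0 → 0 < m z x ∧
      Tendsto (fun j : ℕ => - Real.log (G z (j * x.1, j * x.2)) / j) atTop (𝓝 (m z x))) ∧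
      Convex ℝ (Wulff (m z)) ∧ IsCompact (Wulff (m z)) ∧ (0 : ℝ × ℝ) ∈ interior (Wulff (m z))) ∧
    ∀ u ∈ Ioo (0 : ℝ) (1 / 4), (∃ z : ℝ, IsMax μ m u z) ∧
      (∀ z z' : ℝ, IsMax μ m u z → IsMax μ m u z' →
        √(u / volume.real (Wulff (m z))) • Wulff (m z) =
          √(u / volume.real (Wulff (m z'))) • Wulff (m z')) ∧
      ∀ z : ℝ, IsMax μ m u z → volume.real (√(u / volume.real (Wulff (m z))) • Wulff (m z)) = u ∧
        ∀ δ : ℝ, 0 < δ → ∃ (c ε : ℝ) (k₀ : ℕ), 0 < c ∧ 0 < ε ∧ ∀ k : ℕ, k₀ ≤ k → ∀ n : ℕ,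
          |(n : ℝ) / (k : ℝ) ^ 2 - u| ≤ ε → 0 < num k n (fun _ => True) ∧
          num k n (fun f => ¬Close k (√(u / volume.real (Wulff (m z))) • Wulff (m z)) δ f) ≤
            Real.exp (-(c * k)) * num k n (fun _ => True) := by
  have hmu := H981.mu_pos
  obtain ⟨m, hm⟩ : ∃ m : ℝ → ℤ × ℤ → ℝ,
      m = fun z x => Y981.L2X.M (-Real.log (z * H981.mu)) ((x.1 : ℝ), (x.2 : ℝ)) := ⟨_, rfl⟩
  have hlogE : ∀ z : ℝ, 0 < z → z < 1 / H981.mu → 0 < -Real.log (z * H981.mu) := by
    intro z hz hz1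
    have h1 : z * H981.mu < 1 := by rwa [lt_div_iff₀ hmu] at hz1
    have h2 := Real.log_neg (mul_pos hz hmu) h1
    linarith
  have hW : ∀ z : ℝ, 0 < z → z < 1 / H981.mu →
      Wulff (m z) = H26.WF.Kc (-Real.log (z * H981.mu)) := by
    intro z hz hz1
    rw [hm]
    exact H26.WF.shape (hlogE z hz hz1)
  have hinv : ∀ E : ℝ, 0 < E → ∃ z : ℝ, 0 < z ∧ z < 1 / H981.mu ∧
      -Real.log (z * H981.mu) = E := by
    intro E hE
    refine ⟨Real.exp (-E) / H981.mu, by positivity, ?_, ?_⟩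
    · rw [div_lt_div_iff_of_pos_right hmu, ← Real.exp_zero]
      exact Real.exp_lt_exp.2 (by linarith)
    · rw [div_mul_cancel₀ _ hmu.ne', Real.log_exp, neg_neg]
  -- maximisers
  have hval : ∀ u : ℝ, 0 ≤ u → ∀ z : ℝ, 0 < z → z < 1 / H981.mu →
      2 * √(u * volume.real (Wulff (m z))) + 2 * Real.log (H981.mu * z) =
        2 * (√u * H26.WF.g (-Real.log (z * H981.mu))) - 2 * -Real.log (z * H981.mu) := by
    intro u hu z hz hz1
    rw [hW z hz hz1, Real.sqrt_mul hu, mul_comm H981.mu z]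
    unfold H26.WF.g H26.WF.V
    ring
  have hopt : ∀ u : ℝ, 0 < u → u < 1 / 4 → ∀ z : ℝ, 0 < z → z < 1 / H981.mu →
      (IsMax H981.mu m u z ↔ H26.WS.Opt u (-Real.log (z * H981.mu))) := by
    intro u hu hu4 z hz hz1
    have hs := H26.WF.sqrt_mem ⟨hu.le, hu4.le⟩
    have hv : ∀ E, 2 * √(u * H26.WF.V E) - 2 * E = 2 * (√u * H26.WF.g E) - 2 * E := by
      intro E
      rw [Real.sqrt_mul hu.le]
      rfl
    constructor
    · rintro ⟨-, -, h⟩
      refine ⟨hlogE z hz hz1, ?_⟩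
      rw [H26.WF.RR_eq hu.le, hv]
      apply le_antisymm
      · apply H26.WF.rho_le
        intro E hE
        obtain ⟨z', hz', hz1', rfl⟩ := hinv E hE
        have h1 := h z' hz' hz1'
        rwa [hval u hu.le z hz hz1, hval u hu.le z' hz' hz1'] at h1
      · exact H26.WF.le_rho hs.1 hs.2 (hlogE z hz hz1)
    · rintro ⟨-, h⟩
      refine ⟨hz, hz1, ?_⟩
      intro z' hz' hz1'
      rw [hval u hu.le z hz hz1, hval u hu.le z' hz' hz1']
      rw [H26.WF.RR_eq hu.le, hv] at h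
      rw [← h]
      exact H26.WF.le_rho hs.1 hs.2 (hlogE z' hz' hz1')
  have hT : ∀ u z : ℝ, 0 < z → z < 1 / H981.mu →
      √(u / volume.real (Wulff (m z))) • Wulff (m z) = H26.WS.WT u (-Real.log (z * H981.mu)) := by
    intro u z hz hz1
    rw [hW z hz hz1]
    rfl
  refine ⟨H981.mu, m, hmu, ?_, ?_, ?_⟩
  · refine H981.tendsto_root.congr ?_
    intro n
    rw [c_eq, TH795.EP.c_eq]
  · intro z hz hz1
    have he := hlogE z hz hz1
    refine ⟨fun x hx => ?_, ?_⟩
    · rw [hm]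
      refine ⟨Y981.L2X.M_pos he hx, ?_⟩
      refine (Y981.L2X.G_dir hz hz1 hx).congr ?_
      intro k
      rw [G_eq]
    · rw [hW z hz hz1]
      exact H26.WF.Kc_props he
  · rintro u ⟨hu, hu4⟩
    refine ⟨?_, ?_, ?_⟩
    · obtain ⟨E, hE⟩ := H26.WS.exists_opt hu hu4
      obtain ⟨z, hz, hz1, rfl⟩ := hinv E hE.1
      exact ⟨z, (hopt u hu hu4 z hz hz1).2 hE⟩
    · intro z z' h h'
      rw [hT u z h.1 h.2.1, hT u z' h'.1 h'.2.1]
      exact H26.WS.opt_unique hu hu4 ((hopt u hu hu4 z h.1 h.2.1).1 h)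
        ((hopt u hu hu4 z' h'.1 h'.2.1).1 h')
    · intro z h
      have hE := (hopt u hu hu4 z h.1 h.2.1).1 h
      rw [hT u z h.1 h.2.1]
      refine ⟨(H26.WS.WT_props hu hE.1).2.2.2.1, ?_⟩
      intro δ hδ
      obtain ⟨c, ε, k₀, hc, hε, hk₀, hk⟩ := H26.FA.shape_exact hu hu4 hE hδ
      refine ⟨c, ε, k₀, hc, hε, ?_⟩
      intro k hkk n hn
      obtain ⟨h1, h2⟩ := hk k hkk n hn
      have hk0 : (0 : ℝ) < k := by exact_mod_cast (by omega : 0 < k)
      have e : num k n (fun _ => True) = ((H26.GC.PQ (H26.FA.Ea n) k).ncard : ℝ) / (4 * (k : ℝ)) := by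
        unfold num
        simp only [and_true]
        rfl
      rw [e]
      refine ⟨by positivity, ?_⟩
      unfold num
      rw [← mul_div_assoc]
      exact div_le_div_of_nonneg_right h2 (by positivity)

end Pool.Agent.Results.MP_d21795_pr.ShapeGivenPerimeterArea
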